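import Mathlib
import Pool.Agent.N385.ST.CrossCount

/-!
# The length of a Steiner tree inside a smaller concentric ball is bounded (finite terminal sets)
-/

set_option autoImplicit false

open MeasureTheory Pool.Agent.N385.ST
open scoped ENNReal

namespace Pool.Agent.Results.MP_323107_co.FiniteLength

/-- `K` is a Steiner tree for `A`: a connected Steiner set, that is, a closed set of minimal
one-dimensional Hausdorff measure among the closed sets `S` with `S ∪ A` connected -/
def IsSteiner {d : ℕ} (A K : Set (EuclideanSpace ℝ (Fin d))) : Prop :=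
  IsConnected K ∧ IsClosed K ∧ IsConnected (K ∪ A) ∧
    ∀ S : Set (EuclideanSpace ℝ (Fin d)), IsClosed S → IsConnected (S ∪ A) → μH[1] K ≤ μH[1] S

/-- the union of the edges of the graph `G` drawn with straight edges and vertices `p v` -/
def drawing {d n : ℕ} (G : SimpleGraph (Fin n)) (p : Fin n → EuclideanSpace ℝ (Fin d)) :
    Set (EuclideanSpace ℝ (Fin d)) := ⋃ (a) (b) (_ : G.Adj a b), segment ℝ (p a) (p b)

/-- the straight-line drawing of the tree `G` with the vertices `p v` is a Steiner tree for `A`; the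
vertices are the terminals and branching points -/
structure Drawn {d n : ℕ} (A : Set (EuclideanSpace ℝ (Fin d))) (G : SimpleGraph (Fin n))
    (p : Fin n → EuclideanSpace ℝ (Fin d)) : Prop where
  tree : G.IsTree
  inj : Function.Injective p
  terminals : A ⊆ Set.range p
  branching : ∀ v, p v ∉ A → 3 ≤ (G.neighborSet v).ncard
  emb : ∀ a b a' b', G.Adj a b → G.Adj a' b' → s(a, b) ≠ s(a', b') →
    segment ℝ (p a) (p b) ∩ segment ℝ (p a') (p b') ⊆ {p a, p b} ∩ {p a', p b'}
  steiner : IsSteiner A (drawing G p)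

/-- the supremum of `ℋ¹(St ∩ B_{tr}(x)) / r` over all finite sets `A`, all Steiner trees `St` for `A`
(full or not) and all balls `B_r(x)` without points of `A` -/
noncomputable def Mfin (d : ℕ) (t : ℝ) : ℝ≥0∞ :=
  sSup {l | ∃ (A : Set (EuclideanSpace ℝ (Fin d))) (n : ℕ) (G : SimpleGraph (Fin n))
    (p : Fin n → EuclideanSpace ℝ (Fin d)) (x : EuclideanSpace ℝ (Fin d)) (r : ℝ),
    A.Finite ∧ Drawn A G p ∧ 0 < r ∧ A ∩ Metric.ball x r = ∅ ∧
      l = μH[1] (drawing G p ∩ Metric.ball x (t * r)) / ENNReal.ofReal r}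

/-- **The length inside a smaller concentric ball is bounded.** -/
theorem result : ∀ d : ℕ, 3 ≤ d → ∀ t : ℝ, 0 < t → t < 1 → Mfin d t < ⊤ := by
  classical
  intro d hd t ht0 ht
  obtain ⟨B, hB⟩ := cross_count (d := d) (by omega) t ht
  have h : Mfin d t ≤ B * ENNReal.ofReal (2 * t) := by
    refine sSup_le ?_
    rintro N ⟨A, n, G, p, x, r, -, hD, hr, hA, rfl⟩
    have h1 := hB n G p A x r hr hD.inj hD.tree hD.terminals hD.steiner.1
      (fun K hAK hK hK2 =>
        hD.steiner.2.2.2 K hK.isClosed (by rwa [Set.union_eq_self_of_subset_right hAK])) hD.emb (by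
        intro v hv
        refine hD.branching v fun hv2 => ?_
        have h3 : p v ∈ A ∩ Metric.ball x r := ⟨hv2, hv⟩
        rw [hA] at h3
        exact h3)
    have h2 : drawing G p ∩ Metric.ball x (t * r) ⊆
        ⋃ e ∈ meet G p x (t * r), segment ℝ (p e.1) (p e.2) ∩ Metric.ball x (t * r) :=
      carrier_inter Metric.ball_subset_closedBall
    have h3 : μH[1] (drawing G p ∩ Metric.ball x (t * r)) ≤
        B * ENNReal.ofReal (2 * (t * r)) := by
      refine (measure_mono h2).trans ((measure_biUnion_finset_le _ _).trans ?_)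
      have h4 : ∑ e ∈ meet G p x (t * r),
          μH[1] (segment ℝ (p e.1) (p e.2) ∩ Metric.ball x (t * r)) ≤
          ∑ _e ∈ meet G p x (t * r), ENNReal.ofReal (2 * (t * r)) := by
        refine Finset.sum_le_sum fun e he => ?_
        refine (measure_mono (Set.inter_subset_inter_right _ Metric.ball_subset_closedBall)).trans ?_
        exact seg_ball _ _ _ (fun h4 => (mem_meet.1 he).2.1.ne (hD.inj h4)) _
      refine h4.trans ?_
      rw [Finset.sum_const, nsmul_eq_mul]
      gcongr
    have hr0 : ENNReal.ofReal r ≠ 0 := by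
      rw [Ne, ENNReal.ofReal_eq_zero, not_le]; exact hr
    rw [ENNReal.div_le_iff hr0 ENNReal.ofReal_ne_top, mul_assoc, ← ENNReal.ofReal_mul (by positivity)]
    refine h3.trans (le_of_eq ?_)
    rw [mul_assoc]
  refine h.trans_lt ?_
  exact ENNReal.mul_lt_top (ENNReal.natCast_lt_top B) ENNReal.ofReal_lt_top

end Pool.Agent.Results.MP_323107_co.FiniteLength
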